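import Pool.Agent.TH703.HU.Stm
import Pool.Agent.TH703.Cone.Exist
import Pool.Agent.TH703.Cone.Trans

/-!
# Project HU: compactness of sets of bounded relative perimeter, convergence of the divergence
integrals
-/

set_option autoImplicit false

namespace Pool.Agent.TH416.HU

open MeasureTheory Set Filter Topology Metric
open Pool.Agent.TH304.MI Pool.Agent.TH703.HU

lemma sc_one {b : ℕ} (p : PP b) : sc 1 p = p := by
  unfold sc
  ext i
  simp

lemma ple_of {b : ℕ} {Ω F : Set (PP b)} {C : ℝ} (h : PLe 1 Ω F C) :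
    Pool.Agent.TH703.Cone.PLE Ω F C := by
  intro φ hφ
  refine h φ ⟨hφ.c1, hφ.cs, hφ.sub, fun x => ?_⟩
  rw [sc_one]
  exact hφ.le x

lemma nonneg_of {b : ℕ} {Ω F : Set (PP b)} {C : ℝ}
    (h : Pool.Agent.TH703.Cone.PLE Ω F C) : 0 ≤ C := by
  have ht : Pool.Agent.TH703.Cone.Tst Ω (fun _ : PP b => (0 : PP b)) := by
    refine ⟨contDiff_const, HasCompactSupport.zero, ?_, fun x => by simp⟩
    have : tsupport (fun _ : PP b => (0 : PP b)) = ∅ := by
      rw [tsupport_eq_empty_iff]; rfl
    rw [this]
    exact empty_subset _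
  have h2 := h _ ht
  have h3 : ∀ x : PP b, Pool.Agent.TH703.Cone.dv (fun _ : PP b => (0 : PP b)) x = 0 := by
    intro x
    unfold Pool.Agent.TH703.Cone.dv
    simp
  simp only [h3, integral_zero] at h2
  exact h2

lemma dv_integrable {b : ℕ} {φ : PP b → PP b} (h1 : ContDiff ℝ 1 φ) (h2 : HasCompactSupport φ) :
    Integrable (dv φ) := by
  let L : (PP b →L[ℝ] PP b) →ₗ[ℝ] ℝ := (LinearMap.trace ℝ (PP b)) ∘ₗ ContinuousLinearMap.coeLM ℝ
  have hL : Continuous L := L.continuous_of_finiteDimensional
  have hd : dv φ = fun x => L (fderiv ℝ φ x) := rfl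
  have hc : Continuous (dv φ) := by
    rw [hd]
    exact hL.comp (h1.continuous_fderiv one_ne_zero)
  have hs : HasCompactSupport (dv φ) := by
    rw [hd]
    exact (h2.fderiv (𝕜 := ℝ)).comp_left (g := L) (map_zero L)
  exact hc.integrable_of_hasCompactSupport hs

theorem b2 : S_B2 := by
  intro b F F0 hF hF0 hlim φ h1 h2
  have hg := dv_integrable h1 h2
  have hA : Tendsto (fun k => ∫ x in F k \ F0, dv φ x) atTop (𝓝 0) := by
    apply hg.tendsto_setIntegral_nhds_zero
    refine tendsto_of_tendsto_of_tendsto_of_le_of_le tendsto_const_nhds hlim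
      (fun k => zero_le) (fun k => ?_)
    exact measure_mono (fun x hx => Or.inl hx)
  have hB : Tendsto (fun k => ∫ x in F0 \ F k, dv φ x) atTop (𝓝 0) := by
    apply hg.tendsto_setIntegral_nhds_zero
    refine tendsto_of_tendsto_of_tendsto_of_le_of_le tendsto_const_nhds hlim
      (fun k => zero_le) (fun k => ?_)
    exact measure_mono (fun x hx => Or.inr hx)
  have hE : ∀ k, ∫ x in F k, dv φ x = (∫ x in F0, dv φ x) - (∫ x in F0 \ F k, dv φ x) +
      ∫ x in F k \ F0, dv φ x := by
    intro k
    have e1 := integral_inter_add_sdiff (μ := volume) (s := F k) (f := dv φ) hF0 hg.integrableOn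
    have e2 := integral_inter_add_sdiff (μ := volume) (s := F0) (f := dv φ) (hF k) hg.integrableOn
    rw [inter_comm] at e2
    linarith
  simp only [hE]
  have := (tendsto_const_nhds (x := ∫ x in F0, dv φ x)).sub hB |>.add hA
  rw [sub_zero, add_zero] at this
  exact this

theorem b1 : S_B1 := by
  intro b Ω hΩ hc hb F C hFm hFΩ hP
  have hΩfin : volume Ω ≠ ⊤ := hb.measure_lt_top.ne
  obtain ⟨f, hf, hf01, hf0, φ, hφ, hlim⟩ :=
    Pool.Agent.TH703.Cone.Exist.weak_sets hΩ.measurableSet hΩfin F hFm hFΩ
  have hPLE : ∀ k, Pool.Agent.TH703.Cone.PLE Ω (F (φ k)) C := fun k => ple_of (hP _)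
  have hst := Pool.Agent.TH703.Cone.Exist.strong (Pool.Agent.TH703.Cone.t1 (PP b)) hΩ hc hb
    (A := fun k => F (φ k)) (fun k => hFm _) (fun k => hFΩ _)
    (nonneg_of (hPLE 0)) hPLE hf hf01 hf0 hlim
  set A : Set (PP b) := {x | f x = 1} with hA
  have hAm : MeasurableSet A := hf (measurableSet_singleton 1)
  have hAΩ : A ⊆ Ω := by
    intro x hx
    by_contra hcon
    have h2 := hf0 x hcon
    have h3 : f x = 1 := hx
    rw [h3] at h2
    exact one_ne_zero h2
  have hfA : ∀ᵐ x : PP b, ∀ c : ℝ, c * f x = A.indicator (fun _ => c) x := by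
    filter_upwards [hst] with x hx c
    by_cases h : f x = 1
    · have : x ∈ A := h
      rw [indicator_of_mem this, h, mul_one]
    · have h2 : x ∉ A := h
      rw [indicator_of_notMem h2]
      rcases mul_eq_zero.1 hx with h3 | h3
      · rw [h3, mul_zero]
      · exact absurd (by linarith) h
  have hint : ∀ h : PP b → ℝ, ∫ x, h x * f x = ∫ x in A, h x := by
    intro h
    rw [← integral_indicator hAm]
    refine integral_congr_ae ?_
    filter_upwards [hfA] with x hx
    rw [hx (h x)]
    by_cases hxA : x ∈ A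
    · rw [indicator_of_mem hxA, indicator_of_mem hxA]
    · rw [indicator_of_notMem hxA, indicator_of_notMem hxA]
  have hAfin : volume A ≠ ⊤ := ne_top_of_le_ne_top hΩfin (measure_mono hAΩ)
  have hFfin : ∀ k, volume (F k) ≠ ⊤ := fun k =>
    ne_top_of_le_ne_top hΩfin (measure_mono (hFΩ k))
  refine ⟨A, φ, hAm, hAΩ, hφ, ?_⟩
  -- total volumes
  have l1 : Tendsto (fun k => volume.real (F (φ k))) atTop (𝓝 (volume.real A)) := by
    have hl := hlim (fun _ => (1 : ℝ)) ⟨measurable_const, 1, fun x => by simp⟩
    rw [hint] at hl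
    simpa only [integral_const, smul_eq_mul, mul_one, measureReal_restrict_apply
        MeasurableSet.univ, univ_inter] using hl
  -- volumes of the intersections
  have l2 : Tendsto (fun k => volume.real (F (φ k) ∩ A)) atTop (𝓝 (volume.real A)) := by
    have hl := hlim _ (Pool.Agent.TH703.Cone.Exist.BM.ind hAm)
    rw [hint] at hl
    have e1 : ∀ k, ∫ x in F (φ k), A.indicator (fun _ => (1 : ℝ)) x =
        volume.real (F (φ k) ∩ A) := by
      intro k
      rw [setIntegral_indicator hAm]; simp
    have e2 : ∫ x in A, A.indicator (fun _ => (1 : ℝ)) x = volume.real A := by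
      rw [setIntegral_indicator hAm]; simp
    simp only [e1, e2] at hl
    exact hl
  have l3 : Tendsto (fun k => volume.real (symmDiff (F (φ k)) A)) atTop (𝓝 0) := by
    have e : ∀ k, volume.real (symmDiff (F (φ k)) A) =
        volume.real (F (φ k)) + volume.real A - 2 * volume.real (F (φ k) ∩ A) := by
      intro k
      rw [measureReal_symmDiff_eq (μ := volume) (s := F (φ k)) (t := A) (hFm _) hAm
        (hFfin _) hAfin]
      have e1 := measureReal_inter_add_sdiff (μ := volume) (s := F (φ k)) hAm (hFfin _)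
      have e2 := measureReal_inter_add_sdiff (μ := volume) (s := A) (hFm (φ k)) hAfin
      rw [inter_comm] at e2
      linarith
    simp only [e]
    have := (l1.add (tendsto_const_nhds (x := volume.real A))).sub (l2.const_mul 2)
    have h0 : volume.real A + volume.real A - 2 * volume.real A = 0 := by ring
    rw [h0] at this
    exact this
  have hsfin : ∀ k, volume (symmDiff (F (φ k)) A) ≠ ⊤ := by
    intro k
    refine ne_top_of_le_ne_top hΩfin (measure_mono ?_)
    rintro x (hx | hx)
    · exact hFΩ _ hx.1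
    · exact hAΩ hx.1
  have l4 := ENNReal.tendsto_ofReal l3
  rw [ENNReal.ofReal_zero] at l4
  refine l4.congr fun k => ?_
  exact ENNReal.ofReal_toReal (hsfin k)

end Pool.Agent.TH416.HU
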